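import Pool.Agent.LFA74.Master

/-!
The number of classes of polynomials of degree at most `d` without zeros on the image of an entire
map of `ℂⁿ` is at most `(n + d).choose d`.
-/

set_option autoImplicit false

namespace Pool.Agent.LFA74B

open Topology Filter Set

variable {n : ℕ}

theorem card_monomials (n d : ℕ) :
    Nat.card {s : Fin n →₀ ℕ | (s.sum fun _ e => e) ≤ d} ≤ (n + d).choose d := by
  have h1 : ((Finset.univ : Finset (Fin (n + 1))).finsuppAntidiag d).card = (n + d).choose d := by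
    rw [Finset.card_finsuppAntidiag_nat_eq_choose, Finset.card_univ, Fintype.card_fin]
    congr 1
    omega
  have hs : ∀ s : Fin n →₀ ℕ, (s.sum fun _ e => e) = ∑ i, s i := fun s =>
    s.sum_fintype _ fun _ => rfl
  rw [← h1, ← Nat.card_eq_finsetCard]
  refine Nat.card_le_card_of_injective (fun s : {s : Fin n →₀ ℕ | (s.sum fun _ e => e) ≤ d} =>
    (⟨Finsupp.cons (d - s.1.sum fun _ e => e) s.1, ?_⟩ :
      ((Finset.univ : Finset (Fin (n + 1))).finsuppAntidiag d : Finset _))) ?_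
  · have h2 : (s.1.sum fun _ e => e) ≤ d := s.2
    rw [Finset.mem_finsuppAntidiag]
    refine ⟨?_, Finset.subset_univ _⟩
    rw [Fin.sum_univ_succ, Finsupp.cons_zero]
    simp only [Finsupp.cons_succ]
    rw [← hs]
    omega
  · intro s t hst
    have h3 := congrArg (fun x => Finsupp.tail x.1) hst
    simp only [Finsupp.tail_cons] at h3
    exact Subtype.ext h3

theorem finrank_le (n d : ℕ) :
    Module.finrank ℂ (MvPolynomial.restrictTotalDegree (Fin n) ℂ d) ≤ (n + d).choose d := by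
  exact (Module.finrank_eq_nat_card_basis (MvPolynomial.basisRestrictSupport ℂ
    {s : Fin n →₀ ℕ | (s.sum fun _ e => e) ≤ d})).trans_le (card_monomials n d)

/-- Up to constants there are only finitely many polynomials of degree at most `d` without zeros in
the open set `Ω = G(ℂⁿ)`, `G` entire. -/
theorem finite_classes_card {Ω : Set (Fin n → ℂ)} (hΩ : IsOpen Ω) (hne : Ω.Nonempty)
    {G : (Fin n → ℂ) → (Fin n → ℂ)} (hG : Differentiable ℂ G) (hGΩ : ∀ y, G y ∈ Ω)
    (hsur : ∀ x ∈ Ω, ∃ y, G y = x) (d : ℕ) :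
    ∃ T : Finset (MvPolynomial (Fin n) ℂ),
      T.card ≤ (n + d).choose d ∧
      (∀ g ∈ T, g.totalDegree ≤ d ∧ g ≠ 0 ∧ ∀ z ∈ Ω, MvPolynomial.eval z g ≠ 0) ∧
      ∀ f : MvPolynomial (Fin n) ℂ, f.totalDegree ≤ d → (∀ z ∈ Ω, MvPolynomial.eval z f ≠ 0) →
        ∃ g ∈ T, ∃ c : ℂ, c ≠ 0 ∧ f = c • g := by
  classical
  set W := MvPolynomial.restrictTotalDegree (Fin n) ℂ d with hW
  set S : Set W := {w | ∀ z ∈ Ω, MvPolynomial.eval z (w : MvPolynomial (Fin n) ℂ) ≠ 0} with hS
  obtain ⟨b, hbS, hbspan, hbli⟩ := exists_linearIndependent ℂ S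
  have hbfin : b.Finite := hbli.setFinite
  have hev : ∀ (a : ℂ) (w : W) (z : Fin n → ℂ), MvPolynomial.eval z
      ((a • w : W) : MvPolynomial (Fin n) ℂ) = a * MvPolynomial.eval z
        (w : MvPolynomial (Fin n) ℂ) := by
    intro a w z
    rw [Submodule.coe_smul, MvPolynomial.smul_eval]
  obtain ⟨x0, hx0⟩ := hne
  refine ⟨hbfin.toFinset.image Subtype.val, ?_, ?_, ?_⟩
  · refine Finset.card_image_le.trans (le_trans ?_ (finrank_le n d))
    have hbf : Fintype b := hbfin.fintype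
    rw [Set.Finite.card_toFinset]
    exact hbli.fintype_card_le_finrank
  · intro g hg
    obtain ⟨w, hw, rfl⟩ := Finset.mem_image.1 hg
    have hwS := hbS (hbfin.mem_toFinset.1 hw)
    refine ⟨(MvPolynomial.mem_restrictTotalDegree _ _ _).1 w.2, fun h0 => ?_, hwS⟩
    have := hwS x0 hx0
    rw [h0, map_zero] at this
    exact this rfl
  intro f hfd hfΩ
  set q : W := ⟨f, (MvPolynomial.mem_restrictTotalDegree _ _ _).2 hfd⟩ with hq
  have hqS : q ∈ S := hfΩ
  by_cases hqb : q ∈ b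
  · exact ⟨f, Finset.mem_image.2 ⟨q, hbfin.mem_toFinset.2 hqb, rfl⟩, 1, one_ne_zero,
      (one_smul ℂ f).symm⟩
  have hqspan : q ∈ Submodule.span ℂ b := by
    rw [hbspan]
    exact Submodule.subset_span hqS
  obtain ⟨c, hc1, hc2⟩ := Submodule.mem_span_set.1 hqspan
  set J : Finset W := insert q c.support with hJ
  have hqc : q ∉ c.support := fun h => hqb (hc1 h)
  set co : W → ℂ := fun w => if w = q then 1 else -c w with hco
  have hJS : ∀ w ∈ J, w ∈ S := by
    intro w hw
    rcases Finset.mem_insert.1 hw with h | h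
    · rw [h]; exact hqS
    · exact hbS (hc1 h)
  have hco0 : ∀ w ∈ J, co w ≠ 0 := by
    intro w hw
    rcases Finset.mem_insert.1 hw with h | h
    · simp [hco, h]
    · have h1 : w ≠ q := fun h2 => hqc (h2 ▸ h)
      simp only [hco]
      rw [if_neg h1]
      exact neg_ne_zero.2 (Finsupp.mem_support_iff.1 h)
  have hsum : ∀ z, ∑ w ∈ J, co w * MvPolynomial.eval (G z) (w : MvPolynomial (Fin n) ℂ) = 0 := by
    intro z
    rw [hJ, Finset.sum_insert hqc]
    have h1 : ∑ w ∈ c.support, co w * MvPolynomial.eval (G z) (w : MvPolynomial (Fin n) ℂ)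
        = -∑ w ∈ c.support, c w * MvPolynomial.eval (G z) (w : MvPolynomial (Fin n) ℂ) := by
      rw [← Finset.sum_neg_distrib]
      refine Finset.sum_congr rfl fun w hw => ?_
      have h2 : w ≠ q := fun h2 => hqc (h2 ▸ hw)
      simp only [hco]
      rw [if_neg h2]
      ring
    have h3 : MvPolynomial.eval (G z) (q : MvPolynomial (Fin n) ℂ)
        = ∑ w ∈ c.support, c w * MvPolynomial.eval (G z) (w : MvPolynomial (Fin n) ℂ) := by
      rw [← hc2, Finsupp.sum]
      rw [AddSubmonoidClass.coe_finsetSum, map_sum]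
      refine Finset.sum_congr rfl fun w _ => ?_
      rw [hev]
    rw [h1, h3]
    have h4 : co q = 1 := by simp [hco]
    rw [h4, one_mul, ← sub_eq_add_neg, sub_self]
  obtain ⟨i, hi, j, hj, hij, hprop⟩ := Pool.FB74.borel2 (J := J)
    (h := fun w z => co w * MvPolynomial.eval (G z) (w : MvPolynomial (Fin n) ℂ))
    (Finset.insert_nonempty _ _)
    (fun w _ => ((LFA74.eval_diff _).comp hG).const_mul _)
    (fun w hw z => mul_ne_zero (hco0 w hw) (hJS w hw _ (hGΩ z))) hsum
  set α : ℂ := co i * (co j * MvPolynomial.eval (G 0) (j : MvPolynomial (Fin n) ℂ)) with hα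
  set β : ℂ := co j * (co i * MvPolynomial.eval (G 0) (i : MvPolynomial (Fin n) ℂ)) with hβ
  have hα0 : α ≠ 0 := mul_ne_zero (hco0 i hi) (mul_ne_zero (hco0 j hj) (hJS j hj _ (hGΩ 0)))
  have hβ0 : β ≠ 0 := mul_ne_zero (hco0 j hj) (mul_ne_zero (hco0 i hi) (hJS i hi _ (hGΩ 0)))
  have hpoly : α • i = β • j := by
    have h0 : ((α • i - β • j : W) : MvPolynomial (Fin n) ℂ) = 0 := by
      refine LFA74.eq_zero_of_eval_open hΩ ⟨x0, hx0⟩ fun z hz => ?_
      obtain ⟨y, rfl⟩ := hsur z hz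
      have h1 := hprop y
      rw [Submodule.coe_sub, map_sub, hev, hev, hα, hβ]
      linear_combination h1
    exact sub_eq_zero.1 (Subtype.ext h0)
  by_cases hiq : i = q
  · have hjq : j ≠ q := fun h => hij (hiq.trans h.symm)
    have hjb : j ∈ b := by
      rcases Finset.mem_insert.1 hj with h | h
      · exact absurd h hjq
      · exact hc1 h
    refine ⟨j, Finset.mem_image.2 ⟨j, hbfin.mem_toFinset.2 hjb, rfl⟩, α⁻¹ * β,
      mul_ne_zero (inv_ne_zero hα0) hβ0, ?_⟩
    have h2 : q = (α⁻¹ * β) • j := by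
      rw [mul_smul, ← hpoly, smul_smul, inv_mul_cancel₀ hα0, one_smul, hiq]
    exact congrArg Subtype.val h2
  have hib : i ∈ b := by
    rcases Finset.mem_insert.1 hi with h | h
    · exact absurd h hiq
    · exact hc1 h
  by_cases hjq : j = q
  · refine ⟨i, Finset.mem_image.2 ⟨i, hbfin.mem_toFinset.2 hib, rfl⟩, β⁻¹ * α,
      mul_ne_zero (inv_ne_zero hβ0) hα0, ?_⟩
    have h2 : q = (β⁻¹ * α) • i := by
      rw [mul_smul, hpoly, smul_smul, inv_mul_cancel₀ hβ0, one_smul, hjq]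
    exact congrArg Subtype.val h2
  exfalso
  have hjb : j ∈ b := by
    rcases Finset.mem_insert.1 hj with h | h
    · exact absurd h hjq
    · exact hc1 h
  have hpair : LinearIndependent ℂ ![i, j] := by
    have h1 := hbli.comp ![(⟨i, hib⟩ : b), ⟨j, hjb⟩] (by
      intro x y hxy
      fin_cases x <;> fin_cases y <;> simp at hxy ⊢
      · exact hij hxy
      · exact hij hxy.symm)
    have h2 : ![i, j] = (Subtype.val ∘ ![(⟨i, hib⟩ : b), ⟨j, hjb⟩]) := by
      funext x
      fin_cases x <;> rfl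
    rw [h2]
    exact h1
  rw [LinearIndependent.pair_iff] at hpair
  have := hpair α (-β) (by rw [neg_smul, hpoly, add_neg_cancel])
  exact hα0 this.1

/-- one polynomial `Q` of degree at most `d * (n + d).choose d` vanishes on all omitted
hypersurfaces of degree at most `d` -/
theorem master_deg {Ω : Set (Fin n → ℂ)} (hΩ : IsOpen Ω) {F G : (Fin n → ℂ) → (Fin n → ℂ)}
    (hG : Differentiable ℂ G) (hGΩ : ∀ y, G y ∈ Ω) (hGF : ∀ x ∈ Ω, G (F x) = x) (d : ℕ) :
    ∃ Q : MvPolynomial (Fin n) ℂ, Q ≠ 0 ∧ Q.totalDegree ≤ d * (n + d).choose d ∧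
      ∀ q : MvPolynomial (Fin n) ℂ, q ≠ 0 → q.totalDegree ≤ d →
        (∀ z ∈ Ω, MvPolynomial.eval z q ≠ 0) → ∀ p, MvPolynomial.eval p q = 0 →
          MvPolynomial.eval p Q = 0 := by
  obtain ⟨T, hTc, hT1, hT2⟩ := finite_classes_card hΩ ⟨G 0, hGΩ 0⟩ hG hGΩ
    (fun x hx => ⟨F x, hGF x hx⟩) d
  refine ⟨∏ g ∈ T, g, Finset.prod_ne_zero_iff.2 fun g hg => (hT1 g hg).2.1, ?_, ?_⟩
  · refine (MvPolynomial.totalDegree_finsetProd T _).trans
      ((Finset.sum_le_card_nsmul T _ d fun g hg => (hT1 g hg).1).trans ?_)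
    rw [smul_eq_mul, mul_comm]
    exact Nat.mul_le_mul_left d hTc
  · intro q _ hqd hqΩ p hp
    obtain ⟨g, hg, c, hc, hqg⟩ := hT2 q hqd hqΩ
    rw [hqg, MvPolynomial.smul_eval] at hp
    rw [map_prod]
    exact Finset.prod_eq_zero hg ((mul_eq_zero.1 hp).resolve_left hc)

end Pool.Agent.LFA74B
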