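import Pool.Agent.LFA74B.Eff

/-!
The polynomial of the omitted hypersurfaces has itself no zeros on the image.
-/

set_option autoImplicit false

namespace Pool.Agent.LFA74B

open Topology Filter Set

variable {n : ℕ}

/-- one polynomial `Q` of degree at most `d * (n + d).choose d`, without zeros on `Ω`, vanishes on
all omitted hypersurfaces of degree at most `d` -/
theorem master_omit {Ω : Set (Fin n → ℂ)} (hΩ : IsOpen Ω) {F G : (Fin n → ℂ) → (Fin n → ℂ)}
    (hG : Differentiable ℂ G) (hGΩ : ∀ y, G y ∈ Ω) (hGF : ∀ x ∈ Ω, G (F x) = x) (d : ℕ) :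
    ∃ Q : MvPolynomial (Fin n) ℂ, Q.totalDegree ≤ d * (n + d).choose d ∧
      (∀ z ∈ Ω, MvPolynomial.eval z Q ≠ 0) ∧
      ∀ q : MvPolynomial (Fin n) ℂ, q.totalDegree ≤ d →
        (∀ z ∈ Ω, MvPolynomial.eval z q ≠ 0) → ∀ p, MvPolynomial.eval p q = 0 →
          MvPolynomial.eval p Q = 0 := by
  obtain ⟨T, hTc, hT1, hT2⟩ := finite_classes_card hΩ ⟨G 0, hGΩ 0⟩ hG hGΩ
    (fun x hx => ⟨F x, hGF x hx⟩) d
  refine ⟨∏ g ∈ T, g, ?_, ?_, ?_⟩
  · refine (MvPolynomial.totalDegree_finsetProd T _).trans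
      ((Finset.sum_le_card_nsmul T _ d fun g hg => (hT1 g hg).1).trans ?_)
    rw [smul_eq_mul, mul_comm]
    exact Nat.mul_le_mul_left d hTc
  · intro z hz
    rw [map_prod]
    exact Finset.prod_ne_zero_iff.2 fun g hg => (hT1 g hg).2.2 z hz
  · intro q hqd hqΩ p hp
    obtain ⟨g, hg, c, hc, hqg⟩ := hT2 q hqd hqΩ
    rw [hqg, MvPolynomial.smul_eval] at hp
    rw [map_prod]
    exact Finset.prod_eq_zero hg ((mul_eq_zero.1 hp).resolve_left hc)

end Pool.Agent.LFA74B
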